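import Pool.Agent.Y624.SC.Stm2

set_option autoImplicit false

/-! The case of equality: the vectors are the vertices of a regular simplex. -/

namespace Pool.Agent.Y145.SC

open Finset

variable {d k : ℕ} {v : Fin (d + 1) → EuclideanSpace ℝ (Fin d)}

theorem step1 (hkd : k < d) (hs : ∑ i, v i = 0)
    (H : ∀ I J : Finset (Fin (d + 1)), Disjoint I J → I.card = k → J.card = d - k →
      (k : ℝ) * (d - k + 1) * ‖∑ a ∈ J, v a‖ ^ 2 = (d - k) * (k + 1) * ‖∑ a ∈ I, v a‖ ^ 2)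
    (I : Finset (Fin (d + 1))) (hI : I.card = k) (i : Fin (d + 1)) (hi : i ∉ I) :
    (k : ℝ) * (d - k + 1) * ‖(∑ a ∈ I, v a) + v i‖ ^ 2 =
      (d - k) * (k + 1) * ‖∑ a ∈ I, v a‖ ^ 2 := by
  have h1 := H I (insert i I)ᶜ (by
    rw [disjoint_left]
    intro a ha hb
    rw [mem_compl] at hb
    exact hb (mem_insert_of_mem ha)) hI (by
    rw [card_compl, card_insert_of_notMem hi, Fintype.card_fin, hI]
    omega)
  have h2 : ∑ a ∈ (insert i I)ᶜ, v a = -((∑ a ∈ I, v a) + v i) := by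
    have h3 := sum_add_sum_compl (insert i I) v
    rw [hs, sum_insert hi] at h3
    rw [eq_neg_iff_add_eq_zero, ← h3]
    abel
  rw [h2, norm_neg] at h1
  exact h1

theorem step2 (hk : 1 ≤ k) (hkd : k < d) (hs : ∑ i, v i = 0)
    (H : ∀ I J : Finset (Fin (d + 1)), Disjoint I J → I.card = k → J.card = d - k →
      (k : ℝ) * (d - k + 1) * ‖∑ a ∈ J, v a‖ ^ 2 = (d - k) * (k + 1) * ‖∑ a ∈ I, v a‖ ^ 2)
    (T : Finset (Fin (d + 1))) (hT : T.card = k - 1) (a b : Fin (d + 1)) (ha : a ∉ T)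
    (hb : b ∉ T) (hab : a ≠ b) :
    (k : ℝ) * (d - k + 1) * ‖(∑ x ∈ T, v x) + v a + v b‖ ^ 2 =
      (d - k) * (k + 1) * ‖(∑ x ∈ T, v x) + v a‖ ^ 2 := by
  have h1 := step1 hkd hs H (insert a T) (by rw [card_insert_of_notMem ha, hT]; omega) b (by
    rw [mem_insert, not_or]
    exact ⟨hab.symm, hb⟩)
  rw [sum_insert ha, add_comm (v a)] at h1
  exact h1

theorem expand {E : Type} [NormedAddCommGroup E] [InnerProductSpace ℝ E] (x a b : E) :
    2 * (inner ℝ a b : ℝ) = ‖x + a + b‖ ^ 2 - ‖x + a‖ ^ 2 - ‖x + b‖ ^ 2 + ‖x‖ ^ 2 := by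
  rw [norm_add_sq_real (x + a) b, norm_add_sq_real x b, inner_add_left]
  ring

theorem step3 (hk : 1 ≤ k) (hkd : k < d) (hs : ∑ i, v i = 0)
    (H : ∀ I J : Finset (Fin (d + 1)), Disjoint I J → I.card = k → J.card = d - k →
      (k : ℝ) * (d - k + 1) * ‖∑ a ∈ J, v a‖ ^ 2 = (d - k) * (k + 1) * ‖∑ a ∈ I, v a‖ ^ 2)
    (a b c : Fin (d + 1)) (hab : a ≠ b) (hac : a ≠ c) (hbc : b ≠ c) :
    (inner ℝ (v a) (v b) : ℝ) = inner ℝ (v a) (v c) := by
  have hcard : ({a, b, c} : Finset (Fin (d + 1))).card = 3 := by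
    rw [card_eq_three]
    exact ⟨a, b, c, hab, hac, hbc, rfl⟩
  obtain ⟨T, hT1, hT2⟩ := exists_subset_card_eq
    (s := ({a, b, c} : Finset (Fin (d + 1)))ᶜ) (n := k - 1) (by
      rw [card_compl, hcard, Fintype.card_fin]
      omega)
  have hnot : ∀ x ∈ ({a, b, c} : Finset (Fin (d + 1))), x ∉ T := fun x hx hxT =>
    (mem_compl.1 (hT1 hxT)) hx
  have ha : a ∉ T := hnot a (by simp)
  have hb : b ∉ T := hnot b (by simp)
  have hc : c ∉ T := hnot c (by simp)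
  have e1 := step2 hk hkd hs H T hT2 a b ha hb hab
  have e2 := step2 hk hkd hs H T hT2 b a hb ha hab.symm
  have e3 := step2 hk hkd hs H T hT2 a c ha hc hac
  have e4 := step2 hk hkd hs H T hT2 c a hc ha hac.symm
  rw [add_right_comm] at e2 e4
  have hk' : (1 : ℝ) ≤ k := by exact_mod_cast hk
  have hkd' : (k : ℝ) < d := by exact_mod_cast hkd
  have hP : (0 : ℝ) < (k : ℝ) * (d - k + 1) := by
    apply mul_pos <;> linarith
  have hR : (0 : ℝ) < ((d : ℝ) - k) * (k + 1) := by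
    apply mul_pos <;> linarith
  have f1 : ‖(∑ x ∈ T, v x) + v a‖ ^ 2 = ‖(∑ x ∈ T, v x) + v b‖ ^ 2 :=
    mul_left_cancel₀ hR.ne' (e1.symm.trans e2)
  have f2 : ‖(∑ x ∈ T, v x) + v a‖ ^ 2 = ‖(∑ x ∈ T, v x) + v c‖ ^ 2 :=
    mul_left_cancel₀ hR.ne' (e3.symm.trans e4)
  have f3 : ‖(∑ x ∈ T, v x) + v a + v b‖ ^ 2 = ‖(∑ x ∈ T, v x) + v a + v c‖ ^ 2 :=
    mul_left_cancel₀ hP.ne' (e1.trans e3.symm)
  have g1 := expand (∑ x ∈ T, v x) (v a) (v b)
  have g2 := expand (∑ x ∈ T, v x) (v a) (v c)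
  linarith

theorem step4 (hk : 1 ≤ k) (hkd : k < d) (hs : ∑ i, v i = 0)
    (H : ∀ I J : Finset (Fin (d + 1)), Disjoint I J → I.card = k → J.card = d - k →
      (k : ℝ) * (d - k + 1) * ‖∑ a ∈ J, v a‖ ^ 2 = (d - k) * (k + 1) * ‖∑ a ∈ I, v a‖ ^ 2)
    (a b : Fin (d + 1)) (hab : a ≠ b) :
    (d : ℝ) * inner ℝ (v a) (v b) = - ‖v a‖ ^ 2 := by
  have h1 : (inner ℝ (v a) (∑ i, v i) : ℝ) = 0 := by rw [hs, inner_zero_right]
  rw [inner_sum, ← add_sum_erase _ _ (mem_univ a), real_inner_self_eq_norm_sq] at h1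
  have h2 : ∑ x ∈ univ.erase a, (inner ℝ (v a) (v x) : ℝ) =
      ∑ x ∈ univ.erase a, (inner ℝ (v a) (v b) : ℝ) := by
    apply sum_congr rfl
    intro x hx
    have hxa : x ≠ a := (mem_erase.1 hx).1
    by_cases hxb : x = b
    · rw [hxb]
    · exact step3 hk hkd hs H a x b hxa.symm hab hxb
  rw [h2, sum_const, card_erase_of_mem (mem_univ a), card_univ, Fintype.card_fin, nsmul_eq_mul,
    Nat.add_sub_cancel] at h1
  linarith

theorem done : Pool.Agent.Y624.SC.S_RIG2 := by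
  intro d k hk hkd v hs H a b hab
  have h1 := step4 hk hkd hs H a b hab
  have h2 := step4 hk hkd hs H b a hab.symm
  refine ⟨h1, ?_⟩
  rw [real_inner_comm] at h2
  have h3 : ‖v a‖ ^ 2 = ‖v b‖ ^ 2 := by linarith
  exact (sq_eq_sq₀ (norm_nonneg _) (norm_nonneg _)).1 h3

end Pool.Agent.Y145.SC
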